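import Mathlib

/-!
# Horace-type induction for forms with prescribed exponents: definitions

`ι` is the finite set of (homogeneous) variables.  A form is given by its coefficient function
`f : (ι → ℕ) → R`, of which only the values on a finite set `A` of exponents matter.
-/

namespace Pool.Agent.H18.Ex

open Finset

/-! ### Geometry -/

/-- `binom(m + n - 1, n)`, the length of a point of multiplicity `m` in dimension `n`. -/
def ell (n m : ℕ) : ℕ := (m + n - 1).choose n

section

variable {ι : Type} [Fintype ι] [DecidableEq ι]

/-- The `b`-th Taylor (Hasse) coefficient of the monomial `x^a` at the point `q`. -/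
def tcr {R : Type*} [CommRing R] (q : ι → R) (a b : ι → ℕ) : R :=
  ∏ i, (((a i).choose (b i) : ℕ) : R) * q i ^ (a i - b i)

end

/-- The kinds of conditions.  `free m`: vanishing to order `m` at a general point.
`forced l c e`: the conditions with multi-index `b`, `|b| < c`, `b l + e ≤ c` at a general point
of the hyperplane `x_l = 0` (for `e = 1` this is vanishing to order `c` there). -/
inductive Kind (ι : Type) : Type where
  | free (m : ℕ) : Kind ι
  | forced (l : ι) (c e : ℕ) : Kind ι

section

variable {ι : Type} [Fintype ι] [DecidableEq ι]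

/-- The actual point of a condition: for `forced l` the `l`-th coordinate is replaced by `0`. -/
def Kind.pt {R : Type*} [Zero R] (k : Kind ι) (q : ι → R) : ι → R :=
  match k with
  | .free _ => q
  | .forced l _ _ => Function.update q l 0

/-- The multi-indices of a condition. -/
def Kind.Idx (k : Kind ι) (b : ι → ℕ) : Prop :=
  match k with
  | .free m => ∑ i, b i < m
  | .forced l c e => ∑ i, b i < c ∧ b l + e ≤ c

/-- The form with coefficients `f` (on `A`) satisfies the condition `k` at the point `q`. -/
def Sat {R : Type*} [CommRing R] (A : Finset (ι → ℕ)) (f : (ι → ℕ) → R) (k : Kind ι)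
    (q : ι → R) : Prop :=
  ∀ b, k.Idx b → ∑ a ∈ A, f a * tcr (k.pt q) a b = 0

/-- At the positions `pos` only the zero form satisfies all conditions. -/
def InjAt {κ : Type} (A : Finset (ι → ℕ)) (k : κ → Kind ι) (pos : κ → ι → ℂ) : Prop :=
  ∀ f : (ι → ℕ) → ℂ, (∀ i, Sat A f (k i) (pos i)) → ∀ a ∈ A, f a = 0

/-- At some (equivalently, at general) positions only the zero form satisfies all conditions. -/
def GI {κ : Type} (A : Finset (ι → ℕ)) (k : κ → Kind ι) : Prop :=
  ∃ pos : κ → ι → ℂ, InjAt A k pos

/-- The condition is not forced to the hyperplane `x_l = 0`. -/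
def Kind.NotAt (l : ι) (k : Kind ι) : Prop :=
  match k with
  | .free _ => True
  | .forced l' _ _ => l' ≠ l

end

section

variable {ι : Type}

end

/-! ### Configurations -/

section

variable {ι : Type}

end

/-! ### Regions -/

section

variable {ι : Type} [Fintype ι] [DecidableEq ι]

/-- The region `{x ∈ ℕ^ι : |x| = σ, x ≤ w}`. -/
def Rg (σ : ℕ) (w : ι → ℕ) : Finset (ι → ℕ) :=
  (Fintype.piFinset fun i => range (w i + 1)).filter fun a => ∑ i, a i = σ

theorem mem_Rg {σ : ℕ} {w : ι → ℕ} {a : ι → ℕ} :
    a ∈ Rg σ w ↔ (∀ i, a i ≤ w i) ∧ ∑ i, a i = σ := by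
  unfold Rg
  rw [mem_filter, Fintype.mem_piFinset]
  simp only [mem_range, Nat.lt_succ_iff]

/-- The number of exponents of the region with `x_l = 0`. -/
def fc (σ : ℕ) (w : ι → ℕ) (l : ι) : ℕ := (Rg σ (Function.update w l 0)).card

end

end Pool.Agent.H18.Ex
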